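import Pool.Agent.W645.CP.Force
import Pool.Agent.W645.CP.Neg
import Pool.Agent.Helper391.Gro.P_subspaces_separable
import Pool.Agent.W684.FM.Ambient

set_option autoImplicit false

/-!
# Separability of perfectly normal convex compacta is independent of ZFC

A condition (`Cnd`) is a finite set `D` of countable ordinals together with a finite set `H` of
rational vectors of `[0,1]^D` such that the polytope `X` spanned by `H` contains `0`, is closed
under truncation (setting to zero the coordinates from some ordinal on) and contains for each
coordinate of `D` a point whose value there is `1`. A condition is stronger than another one if it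
has more coordinates and its polytope projects onto the other polytope. Conditions are finite
objects over `ω₁`, and the statements about rational polytopes which occur in `GenericSystem`
are absolute.

* (1) The ordered set of the conditions has the countable chain condition and forces the principle
  `GenericSystem`. The point is the amalgamation theorem `Pool.Agent.W645.CP.amalgam`.
* (2) `GenericSystem` gives a compact convex subset of `ℝ^ω₁` which is perfectly normal (it has no
  right separated sequence of length `ω₁`) and not separable.
* (3) Martin's axiom for `ω₁` dense sets can be forced, and under it perfectly normal convex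
  compacta are separable.

The forcing language is the one of `Pool.Agent.Helper669.Forcing`: a sentence is the set of the
conditions which force it, and a name for a subset of a ground model set `X` is a map sending
`x : X` to a set of conditions.
-/

open Set Cardinal Topology TopologicalSpace

namespace Pool.Agent.Results.MP_97a702_gt.SeparabilityIndependent

open Pool.Agent.W645.CP (CCC GenericSystem GenericSystemHolds)
open Pool.Agent.W684 (MartinAxiomAleph1)
open Pool.Agent.W684.FM (OmegaOnePreserved MartinHolds MartinFor Om1)

theorem ma_of_ma (h : MartinAxiomAleph1) : Pool.Agent.Helper391.Gro.MAOmegaOne := by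
  intro P _ hP hccc D hD
  obtain ⟨F, h1, h2, h3, h4⟩ := h P (fun A hA => hccc A hA) (Set.range D)
    (Cardinal.mk_range_le.trans (Pool.Agent.Helper391.Gro.mk_Om).le) (by
      rintro _ ⟨a, rfl⟩ p
      exact hD a p)
  exact ⟨F, h1, h2, h3, fun a => h4 _ ⟨a, rfl⟩⟩

/-- (1) Some notion of forcing has the countable chain condition, preserves `ω₁` and forces the
principle `GenericSystem`. (2) `GenericSystem` implies that some perfectly normal convex compactum
is not separable, hence not metrizable. (3) Some notion of forcing preserves `ω₁` and forces
Martin's axiom for `ω₁` dense sets (in the form `MartinFor Om1`, which is equivalent to the usual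
form). (4) Martin's axiom for `ω₁` dense sets implies that every perfectly normal convex compactum
is separable. -/
theorem result :
    (∃ (P : Type) (_ : Preorder P), Nonempty P ∧ CCC P ∧ ∀ p : P,
      p ∈ OmegaOnePreserved P ∧ p ∈ GenericSystemHolds P) ∧
    (GenericSystem → ∃ (E : Type) (_ : AddCommGroup E) (_ : Module ℝ E) (_ : TopologicalSpace E)
      (_ : IsTopologicalAddGroup E) (_ : ContinuousSMul ℝ E) (_ : LocallyConvexSpace ℝ E)
      (_ : T2Space E) (K : Set E), IsCompact K ∧ Convex ℝ K ∧ PerfectlyNormalSpace ↥K ∧
        ¬ SeparableSpace ↥K ∧ ¬ MetrizableSpace ↥K) ∧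
    (∃ (P : Type) (_ : Preorder P), Nonempty P ∧ ∀ p : P,
      p ∈ OmegaOnePreserved P ∧ p ∈ MartinHolds P Om1) ∧
    (MartinFor Om1 ↔ MartinAxiomAleph1) ∧
    (MartinAxiomAleph1 → ∀ (E : Type) [AddCommGroup E] [Module ℝ E] [TopologicalSpace E]
      [IsTopologicalAddGroup E] [ContinuousSMul ℝ E] [LocallyConvexSpace ℝ E] [T2Space E]
      (K : Set E), IsCompact K → Convex ℝ K → PerfectlyNormalSpace ↥K → SeparableSpace ↥K) := by
  refine ⟨?_, ?_, ?_, Pool.Agent.W684.FM.martinFor_om1_iff, ?_⟩
  · have hne : Nonempty (Pool.Agent.W645.CP.Cnd Pool.Agent.W645.CP.Om) :=
      ⟨{ D := ∅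
         H := {0}
         supp := by
          intro h hh β _
          rw [Finset.mem_singleton.1 hh]; rfl
         unit := by
          intro h hh β
          rw [Finset.mem_singleton.1 hh]
          exact ⟨le_rfl, zero_le_one⟩
         zero := by
          refine subset_convexHull ℝ _ ⟨0, by simp, ?_⟩
          funext β
          simp [Pool.Agent.W645.CP.toR]
         trunc := by
          intro h hh γ
          rw [Finset.mem_singleton.1 hh]
          have h0 : Pool.Agent.W645.CP.toR
              (0 : Pool.Agent.W645.CP.Om →₀ ℚ) = 0 := by
            funext β
            simp [Pool.Agent.W645.CP.toR]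
          rw [h0, map_zero]
          refine subset_convexHull ℝ _ ⟨0, by simp, h0⟩
         one := by
          intro β hβ
          exact absurd hβ (Finset.notMem_empty β) }⟩
    exact ⟨_, inferInstance, hne, Pool.Agent.W645.CP.ccc, fun p =>
      ⟨Pool.Agent.W645.CP.omegaOnePreserved_of_ccc Pool.Agent.W645.CP.ccc p,
        Pool.Agent.W645.CP.forced p⟩⟩
  · intro h
    obtain ⟨K, h1, h2, h3, h4⟩ := Pool.Agent.W645.CP.negative h
    refine ⟨Pool.Agent.W645.CP.Om → ℝ, inferInstance, inferInstance, inferInstance,
      inferInstance, inferInstance, inferInstance, inferInstance, K, h1, h2, h3, h4, ?_⟩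
    intro hm
    apply h4
    have : CompactSpace K := isCompact_iff_compactSpace.1 h1
    let := metrizableSpaceMetric K
    infer_instance
  · obtain ⟨P, i, hne, h⟩ := Pool.Agent.W684.FM.exists_forcing Om1
    exact ⟨P, i, hne, fun p => (h p).2⟩
  · intro h E _ _ _ _ _ _ _ K hK _ hpn
    have : CompactSpace K := isCompact_iff_compactSpace.1 hK
    have h1 := Pool.Agent.Helper391.Gro.subspaces_separable (ma_of_ma h) K Set.univ
    exact (Homeomorph.Set.univ K).surjective.denseRange.separableSpace
      (Homeomorph.Set.univ K).continuous

end Pool.Agent.Results.MP_97a702_gt.SeparabilityIndependent
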